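import Pool.Agent.Y478.TG.Stm

/-! # TG-MOM: a finite measure on `[0, K]` is determined by its moments -/

set_option autoImplicit false

open MeasureTheory Polynomial

namespace Pool.Agent.Y239.TG.Mom

theorem ae_mem {μ : Measure ℝ} {K : ℝ} (h : μ (Set.Icc 0 K)ᶜ = 0) :
    ∀ᵐ x ∂μ, x ∈ Set.Icc 0 K := mem_ae_iff.2 h

theorem integrable_of_cont {μ : Measure ℝ} [IsFiniteMeasure μ] {K : ℝ}
    (h : μ (Set.Icc 0 K)ᶜ = 0) {f : ℝ → ℝ} (hf : Continuous f) : Integrable f μ := by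
  obtain ⟨C, hC⟩ := (isCompact_Icc (a := (0 : ℝ)) (b := K)).exists_bound_of_continuousOn
    hf.continuousOn
  refine Integrable.of_bound hf.aestronglyMeasurable C ?_
  filter_upwards [ae_mem h] with x hx
  exact hC x hx

theorem int_poly {μ ν : Measure ℝ} [IsFiniteMeasure μ] [IsFiniteMeasure ν] {K : ℝ}
    (hμ : μ (Set.Icc 0 K)ᶜ = 0) (hν : ν (Set.Icc 0 K)ᶜ = 0)
    (hm : ∀ k : ℕ, ∫ x, x ^ k ∂μ = ∫ x, x ^ k ∂ν) (P : ℝ[X]) :
    ∫ x, P.eval x ∂μ = ∫ x, P.eval x ∂ν := by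
  simp only [Polynomial.eval_eq_sum_range]
  rw [integral_finsetSum _ fun i _ => (integrable_of_cont hμ (by fun_prop)),
    integral_finsetSum _ fun i _ => (integrable_of_cont hν (by fun_prop))]
  refine Finset.sum_congr rfl fun i _ => ?_
  rw [integral_const_mul, integral_const_mul, hm]

theorem near {μ : Measure ℝ} [IsFiniteMeasure μ] {K : ℝ} (hμ : μ (Set.Icc 0 K)ᶜ = 0)
    {f g : ℝ → ℝ} (hf : Continuous f) (hg : Continuous g) {ε : ℝ}
    (h : ∀ x ∈ Set.Icc 0 K, |f x - g x| ≤ ε) :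
    |∫ x, f x ∂μ - ∫ x, g x ∂μ| ≤ ε * μ.real Set.univ := by
  rw [← integral_sub (integrable_of_cont hμ hf) (integrable_of_cont hμ hg)]
  have h1 : ∀ᵐ x ∂μ, ‖f x - g x‖ ≤ ε := by
    filter_upwards [ae_mem hμ] with x hx
    exact h x hx
  exact norm_integral_le_of_norm_le_const h1

theorem t : Pool.Agent.Y478.TG.MomStmt := by
  intro μ ν _ _ K hμ hν hm
  refine ext_of_forall_integral_eq_of_IsFiniteMeasure fun f => ?_
  refine eq_of_forall_dist_le fun ε hε => ?_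
  set M := μ.real Set.univ + ν.real Set.univ with hM
  have hM0 : 0 ≤ M := add_nonneg measureReal_nonneg measureReal_nonneg
  obtain ⟨P, hP⟩ := exists_polynomial_near_of_continuousOn 0 K f f.continuous.continuousOn
    (ε / (M + 1)) (by positivity)
  have h1 : ∀ x ∈ Set.Icc 0 K, |f x - P.eval x| ≤ ε / (M + 1) := by
    intro x hx
    rw [abs_sub_comm]
    exact (hP x hx).le
  have h2 := near hμ f.continuous P.continuous h1
  have h3 := near hν f.continuous P.continuous h1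
  have h4 := int_poly hμ hν hm P
  rw [Real.dist_eq]
  have h5 : ε / (M + 1) * M ≤ ε := by
    rw [div_mul_eq_mul_div, div_le_iff₀ (by positivity)]
    nlinarith
  calc |∫ x, f x ∂μ - ∫ x, f x ∂ν|
      = |(∫ x, f x ∂μ - ∫ x, P.eval x ∂μ) - (∫ x, f x ∂ν - ∫ x, P.eval x ∂ν)| := by
        rw [h4]
        congr 1
        ring
    _ ≤ |∫ x, f x ∂μ - ∫ x, P.eval x ∂μ| + |∫ x, f x ∂ν - ∫ x, P.eval x ∂ν| := abs_sub _ _
    _ ≤ ε / (M + 1) * μ.real Set.univ + ε / (M + 1) * ν.real Set.univ := add_le_add h2 h3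
    _ = ε / (M + 1) * M := by rw [hM]; ring
    _ ≤ ε := h5

end Pool.Agent.Y239.TG.Mom
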