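import Pool.Agent.Y478.TG.Stm

/-! # TG-SPEC: the spectral measure of a positive operator -/

set_option autoImplicit false

open MeasureTheory
open scoped InnerProductSpace Topology CompactlySupported InnerProduct

noncomputable section

namespace Pool.Agent.Y239.TG.Spec

open Pool.Agent.Helper993.FK

/-- the compactly supported function `f · cut n` -/
def fc (f : ℝ → ℝ) (hf : Continuous f) (n : ℕ) : C_c(ℝ, ℝ) where
  toFun x := f x * cut n x
  continuous_toFun := hf.mul (cut_continuous n)
  hasCompactSupport' := by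
    apply HasCompactSupport.of_support_subset_isCompact
      (isCompact_Icc (a := -((n : ℝ) + 1)) (b := (n : ℝ) + 1))
    intro x hx
    by_contra hcon
    apply hx
    have : (n : ℝ) + 1 ≤ |x| := by
      rw [Set.mem_Icc, ← abs_le] at hcon
      exact (not_le.1 hcon).le
    show f x * cut n x = 0
    rw [cut_eq_zero this, mul_zero]

theorem fc_apply (f : ℝ → ℝ) (hf : Continuous f) (n : ℕ) (x : ℝ) :
    fc f hf n x = f x * cut n x := rfl

variable {H : Type} [NormedAddCommGroup H] [InnerProductSpace ℂ H] [CompleteSpace H] {r : ℕ}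

theorem trace_fc (e : Fin r → H) (T : H →L[ℂ] H) (hT : 0 ≤ T) (f : ℝ → ℝ) (hf : Continuous f)
    {n : ℕ} (hn : ‖T‖ ≤ n) : traceVal e T (fc f hf n) = traceVal e T f := by
  apply traceVal_congr e T hT le_rfl
  intro x hx
  rw [fc_apply, cut_eq_one, mul_one]
  rw [abs_of_nonneg hx.1]
  exact hx.2.trans hn

theorem lint_le (e : Fin r → H) (T : H →L[ℂ] H) (hT : 0 ≤ T) (f : ℝ → ℝ) (hf : Continuous f)
    (hf0 : ∀ x, 0 ≤ f x) :
    ∫⁻ x, ENNReal.ofReal (f x) ∂(spectralMeasure e T) ≤ ENNReal.ofReal (traceVal e T f) := by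
  set μ := spectralMeasure e T with hμ
  have hreg : Measure.Regular μ := by
    rw [hμ]
    unfold spectralMeasure
    infer_instance
  obtain ⟨K, hK⟩ := exists_nat_ge ‖T‖
  have h1 : ∀ n : ℕ, K ≤ n → ∫ x, fc f hf n x ∂μ = traceVal e T f := by
    intro n hn
    rw [hμ, integral_spectralMeasure]
    exact trace_fc e T hT f hf (hK.trans (by exact_mod_cast hn))
  have h3 : ∀ n : ℕ, K ≤ n → ∫⁻ x, ENNReal.ofReal (fc f hf n x) ∂μ ≤
      ENNReal.ofReal (traceVal e T f) := by
    intro n hn
    have hnn : ∀ x, 0 ≤ fc f hf n x := fun x => by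
      rw [fc_apply]
      exact mul_nonneg (hf0 x) (cut_nonneg n x)
    have hint : Integrable (fc f hf n) μ := (fc f hf n).continuous.integrable_of_hasCompactSupport
      (fc f hf n).hasCompactSupport
    rw [← ofReal_integral_eq_lintegral_ofReal hint (Filter.Eventually.of_forall hnn), h1 n hn]
  calc ∫⁻ x, ENNReal.ofReal (f x) ∂μ
      ≤ ∫⁻ x, Filter.liminf (fun n => ENNReal.ofReal (fc f hf n x)) Filter.atTop ∂μ := by
        apply lintegral_mono
        intro x
        apply le_of_eq
        symm
        apply Filter.Tendsto.liminf_eq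
        apply tendsto_const_nhds.congr'
        obtain ⟨m, hm⟩ := exists_nat_ge |x|
        filter_upwards [Filter.eventually_ge_atTop m] with n hn
        have hn' : (m : ℝ) ≤ n := by exact_mod_cast hn
        rw [fc_apply, cut_eq_one (hm.trans hn'), mul_one]
    _ ≤ Filter.liminf (fun n => ∫⁻ x, ENNReal.ofReal (fc f hf n x) ∂μ) Filter.atTop := by
        apply lintegral_liminf_le
        intro n
        exact ((fc f hf n).continuous.measurable).ennreal_ofReal
    _ ≤ ENNReal.ofReal (traceVal e T f) := by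
        apply Filter.liminf_le_of_frequently_le'
        apply Filter.Eventually.frequently
        filter_upwards [Filter.eventually_ge_atTop K] with n hn
        exact h3 n hn

theorem finite (e : Fin r → H) (T : H →L[ℂ] H) (hT : 0 ≤ T) :
    IsFiniteMeasure (spectralMeasure e T) := by
  refine ⟨?_⟩
  have h := lint_le e T hT (fun _ => 1) continuous_const (fun _ => zero_le_one)
  simp only [ENNReal.ofReal_one, lintegral_one] at h
  exact lt_of_le_of_lt h ENNReal.ofReal_lt_top

theorem supp (e : Fin r → H) (T : H →L[ℂ] H) (hT : 0 ≤ T) :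
    spectralMeasure e T (Set.Icc 0 ‖T‖)ᶜ = 0 := by
  set f : ℝ → ℝ := fun x => max 0 (-x) + max 0 (x - ‖T‖) with hf
  have hfc : Continuous f := by fun_prop
  have h := lint_le e T hT f hfc (fun x => add_nonneg (le_max_left _ _) (le_max_left _ _))
  have h1 : traceVal e T f = 0 := by
    have h2 : traceVal e T f = traceVal e T (fun _ => 0) := by
      apply traceVal_congr e T hT le_rfl
      intro x hx
      simp only [hf]
      rw [max_eq_left (by linarith [hx.1]), max_eq_left (by linarith [hx.2]), add_zero]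
    rw [h2]
    unfold traceVal
    simp [cfc_const_zero]
  rw [h1, ENNReal.ofReal_zero, nonpos_iff_eq_zero,
    lintegral_eq_zero_iff (hfc.measurable.ennreal_ofReal)] at h
  have h3 : ∀ᵐ x ∂(spectralMeasure e T), x ∈ Set.Icc 0 ‖T‖ := by
    filter_upwards [h] with x hx
    simp only [Pi.zero_apply, ENNReal.ofReal_eq_zero, hf] at hx
    have h4 := le_max_left 0 (-x)
    have h5 := le_max_left 0 (x - ‖T‖)
    have h6 := le_max_right 0 (-x)
    have h7 := le_max_right 0 (x - ‖T‖)
    constructor
    · linarith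
    · linarith
  exact mem_ae_iff.1 h3

theorem integral_eq (e : Fin r → H) (T : H →L[ℂ] H) (hT : 0 ≤ T) (f : ℝ → ℝ)
    (hf : Continuous f) : ∫ x, f x ∂(spectralMeasure e T) = traceVal e T f := by
  obtain ⟨K, hK⟩ := exists_nat_ge ‖T‖
  have h1 : ∫ x, f x ∂(spectralMeasure e T) = ∫ x, fc f hf K x ∂(spectralMeasure e T) := by
    apply integral_congr_ae
    have h2 : ∀ᵐ x ∂(spectralMeasure e T), x ∈ Set.Icc 0 ‖T‖ := mem_ae_iff.2 (supp e T hT)
    filter_upwards [h2] with x hx
    rw [fc_apply, cut_eq_one, mul_one]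
    rw [abs_of_nonneg hx.1]
    exact hx.2.trans hK
  rw [h1, integral_spectralMeasure]
  exact trace_fc e T hT f hf hK

theorem t : Pool.Agent.Y478.TG.SpecStmt := by
  intro H _ _ _ r e T hT
  exact ⟨finite e T hT, supp e T hT, fun f hf => integral_eq e T hT f hf⟩

end Pool.Agent.Y239.TG.Spec
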